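import Pool.Agent.Helper89.Vol4.Goals

/-!
# Project V47 (MP_cd13d2_co), packet V47-D2: the Pluecker relation
-/

set_option autoImplicit false

namespace Pool.Agent.Helper56.Vol4.PkD2

open Pool.Agent.Helper89.Vol4 Pool.Agent.Helper86.Poly

/-- the matrix of `W` -/
noncomputable def Mt (x : Fin 7 → E 4) (u v : Fin 7 → ℝ) : Matrix (Fin 7) (Fin 7) ℝ :=
  Matrix.of fun k : Fin 7 => ![1, x k 0, x k 1, x k 2, x k 3, u k, v k]

theorem W_eq (x : Fin 7 → E 4) (u v : Fin 7 → ℝ) : W x u v = (Mt x u v).det := rfl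

theorem col6 (x : Fin 7 → E 4) (u v z : Fin 7 → ℝ) : (Mt x u v).updateCol 6 z = Mt x u z := by
  ext k c
  fin_cases c <;> simp [Mt]

theorem col5 (x : Fin 7 → E 4) (u v z : Fin 7 → ℝ) : (Mt x u v).updateCol 5 z = Mt x z v := by
  ext k c
  fin_cases c <;> simp [Mt]

theorem W_add (x : Fin 7 → E 4) (w p q : Fin 7 → ℝ) : W x w (p + q) = W x w p + W x w q := by
  rw [W_eq, W_eq, W_eq, ← col6 x w 0 (p + q), ← col6 x w 0 p, ← col6 x w 0 q,
    Matrix.det_updateCol_add]

theorem W_smul (x : Fin 7 → E 4) (w p : Fin 7 → ℝ) (a : ℝ) : W x w (a • p) = a * W x w p := by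
  rw [W_eq, W_eq, ← col6 x w 0 (a • p), ← col6 x w 0 p, Matrix.det_updateCol_smul]

theorem W_one (x : Fin 7 → E 4) (w : Fin 7 → ℝ) : W x w (fun _ => 1) = 0 :=
  Matrix.det_zero_of_column_eq (i := 0) (j := 6) (by decide) fun k => by simp

theorem W_x0 (x : Fin 7 → E 4) (w : Fin 7 → ℝ) : W x w (fun k => x k 0) = 0 :=
  Matrix.det_zero_of_column_eq (i := 1) (j := 6) (by decide) fun k => by simp

theorem W_x1 (x : Fin 7 → E 4) (w : Fin 7 → ℝ) : W x w (fun k => x k 1) = 0 :=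
  Matrix.det_zero_of_column_eq (i := 2) (j := 6) (by decide) fun k => by simp

theorem W_x2 (x : Fin 7 → E 4) (w : Fin 7 → ℝ) : W x w (fun k => x k 2) = 0 :=
  Matrix.det_zero_of_column_eq (i := 3) (j := 6) (by decide) fun k => by simp

theorem W_x3 (x : Fin 7 → E 4) (w : Fin 7 → ℝ) : W x w (fun k => x k 3) = 0 :=
  Matrix.det_zero_of_column_eq (i := 4) (j := 6) (by decide) fun k => by simp

theorem W_swap (x : Fin 7 → E 4) (u v : Fin 7 → ℝ) : W x u v = - W x v u := by
  have h := Matrix.det_permute' (Equiv.swap (5 : Fin 7) 6) (Mt x v u)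
  have h1 : (Mt x v u).submatrix id (Equiv.swap (5 : Fin 7) 6) = Mt x u v := by
    ext k c
    fin_cases c <;> simp [Mt, Equiv.swap_apply_def]
  rw [h1, Equiv.Perm.sign_swap (by decide)] at h
  rw [W_eq, W_eq, h]
  simp

theorem main (x : Fin 7 → E 4) (u v w z : Fin 7 → ℝ) :
    W x u v * W x w z = W x z v * W x w u + W x u z * W x w v := by
  obtain ⟨T, hT⟩ : ∃ T : Fin 7 → ℝ, T = Matrix.cramer (Mt x u v) z := ⟨_, rfl⟩
  have h5 : T 5 = W x z v := by
    rw [hT, Matrix.cramer_apply, col5, W_eq]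
  have h6 : T 6 = W x u z := by
    rw [hT, Matrix.cramer_apply, col6, W_eq]
  have h := Matrix.mulVec_cramer (Mt x u v) z
  rw [← hT, ← W_eq] at h
  have h1 : W x u v • z = T 0 • (fun _ => (1 : ℝ)) + (T 1 • (fun k => x k 0) +
      (T 2 • (fun k => x k 1) + (T 3 • (fun k => x k 2) + (T 4 • (fun k => x k 3) +
        (T 5 • u + T 6 • v))))) := by
    rw [← h]
    funext k
    simp only [Matrix.mulVec, dotProduct, Fin.sum_univ_succ, Mt, Matrix.of_apply, Pi.add_apply,
      Pi.smul_apply, smul_eq_mul]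
    simp
    ring
  have h2 := congrArg (W x w) h1
  rw [W_smul, W_add, W_add, W_add, W_add, W_add, W_add, W_smul, W_smul, W_smul, W_smul, W_smul,
    W_smul, W_smul, W_one, W_x0, W_x1, W_x2, W_x3, h5, h6] at h2
  linarith

theorem thm : Pool.Agent.Helper89.Vol4.G_D2 := by
  intro x i j k l
  have h := main x (Pi.single i 1) (Pi.single j 1) (Pi.single k 1) (Pi.single l 1)
  have e1 := W_swap x (Pi.single l 1) (Pi.single j 1)
  have e2 := W_swap x (Pi.single k 1) (Pi.single i 1)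
  have e3 := W_swap x (Pi.single k 1) (Pi.single j 1)
  rw [e1, e2, e3] at h
  unfold Dt
  linarith

end Pool.Agent.Helper56.Vol4.PkD2
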